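import Pool.Agent.Helper79_HMC.Stmts

/-!
# Squad HMC: facts on the squares (helper11)
-/

set_option autoImplicit false

namespace Pool.Agent.HMC.H11

open Pool.Agent.HMC Pool.Agent.HMC.Gem

variable {S : Type}

/-- the opposite smoothing -/
abbrev nA (A : S → Bool) : S → Bool := fun s => !A s

theorem sig_fst (A : S → Bool) (x : Fl S) : (sig A x).1 = x.1 := by
  unfold sig; split_ifs <;> rfl

theorem sig_sig (A : S → Bool) (x : Fl S) : sig A (sig A x) = x := by
  obtain ⟨s, b, c⟩ := x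
  cases h : A s <;> simp [sig, h, f0, f2]

theorem sig_comm (A : S → Bool) (x : Fl S) : sig A (sig (nA A) x) = sig (nA A) (sig A x) := by
  obtain ⟨s, b, c⟩ := x
  cases h : A s <;> simp [sig, h, f0, f2, nA]

theorem sig_ne (A : S → Bool) (x : Fl S) : sig A x ≠ x := by
  obtain ⟨s, b, c⟩ := x
  cases h : A s <;> simp [sig, h, f0, f2]

theorem sig_ne_sig (A : S → Bool) (x : Fl S) : sig A x ≠ sig (nA A) x := by
  obtain ⟨s, b, c⟩ := x
  cases h : A s <;> simp [sig, h, f0, f2, nA]

theorem nA_nA (A : S → Bool) : nA (nA A) = A := by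
  funext s; simp [nA]

theorem a1_ne_sig (G : Gem S) (A : S → Bool) (x : Fl S) : G.a1 x ≠ sig A x := by
  unfold sig
  split_ifs
  · exact G.ne0 x
  · exact G.ne2 x

theorem a1_ne (G : Gem S) (x : Fl S) : G.a1 x ≠ x := by
  intro h
  have := G.hcol x
  rw [h] at this
  cases hx : gcol G.κ x <;> simp [hx] at this

theorem square (A : S → Bool) (x y : Fl S) (h : y.1 = x.1) :
    y = x ∨ y = sig A x ∨ y = sig (nA A) x ∨ y = sig A (sig (nA A) x) := by
  obtain ⟨s, b, c⟩ := x
  obtain ⟨s', b', c'⟩ := y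
  have h' : s' = s := h
  subst h'
  cases hA : A s' <;> cases b <;> cases c <;> cases b' <;> cases c' <;>
    simp [sig, hA, f0, f2, nA]

theorem adj_sig (G : Gem S) (A : S → Bool) (x : Fl S) : G.cg.graph.Adj x (sig A x) := by
  unfold sig
  split_ifs
  · exact ⟨0, rfl⟩
  · exact ⟨2, rfl⟩

theorem adj_a1 (G : Gem S) (x : Fl S) : G.cg.graph.Adj x (G.a1 x) := ⟨1, rfl⟩

/-- the three neighbours -/
theorem adj_iff (G : Gem S) (A : S → Bool) (x y : Fl S) : G.cg.graph.Adj x y ↔
    y = G.a1 x ∨ y = sig A x ∨ y = sig (nA A) x := by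
  constructor
  · rintro ⟨i, rfl⟩
    match i with
    | 0 =>
      right
      show f0 x = _ ∨ f0 x = _
      cases hA : A x.1 <;> simp [sig, nA, hA]
    | 1 => left; rfl
    | 2 =>
      right
      show f2 x = _ ∨ f2 x = _
      cases hA : A x.1 <;> simp [sig, nA, hA]
  · rintro (rfl | rfl | rfl)
    · exact adj_a1 G x
    · exact adj_sig G A x
    · exact adj_sig G _ x

end Pool.Agent.HMC.H11
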