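import Pool.Agent.Helper79_HMC.Stmts
import Pool.Agent.Helper2_XG.Lib

/-!
# Squad HMC: module DPO (helper11)
-/

set_option autoImplicit false

namespace Pool.Agent.HMC.H11

open Pool.Agent.HMC
open Pool.Agent.Common_CookLevin (CNF CNFLetter encodeCNF PolyFn)
open Pool.Agent.H2XG (FP PT)
open Pool.Agent.Helper53_CookLevin (scan scan_append)

instance : Inhabited CNFLetter := ⟨.tick⟩

/-- description of a literal: the number is `a V + b` or `a V + b + v` -/
structure LD where
  a : ℕ
  b : ℕ
  u : Bool
  s : Bool

/-- the literal -/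
def LD.lit (V v : ℕ) (l : LD) : ℕ × Bool := (l.a * V + (l.b + if l.u then v else 0), l.s)

/-- the word of the literal -/
def LD.wr (T p : List CNFLetter) (l : LD) : List CNFLetter :=
  (if l.s then .pos else .neg) ::
    ((List.replicate l.a T).flatten ++ (List.replicate l.b .tick ++ if l.u then p else []))

theorem LD.wr_eq (V v : ℕ) (l : LD) :
    l.wr (List.replicate V .tick) (List.replicate v .tick) =
      (if (l.lit V v).2 then .pos else .neg) :: List.replicate (l.lit V v).1 .tick := by
  unfold LD.wr LD.lit
  have h : (if l.u then List.replicate v CNFLetter.tick else []) =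
      List.replicate (if l.u then v else 0) CNFLetter.tick := by
    split_ifs <;> simp
  rw [h, List.flatten_replicate_replicate, List.replicate_append_replicate,
    List.replicate_append_replicate]

/-- the word of a clause -/
def wrC (T p : List CNFLetter) (c : List LD) : List CNFLetter := .clause :: c.flatMap (LD.wr T p)

/-- the word of a formula -/
def wrF (T p : List CNFLetter) (F : List (List LD)) : List CNFLetter := F.flatMap (wrC T p)

theorem wrF_eq (V v : ℕ) (F : List (List LD)) :
    wrF (List.replicate V .tick) (List.replicate v .tick) F =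
      encodeCNF (F.map fun c => c.map (LD.lit V v)) := by
  unfold wrF encodeCNF
  rw [List.flatMap_map]
  refine List.flatMap_congr fun c _ => ?_
  unfold wrC
  rw [List.flatMap_map]
  congr 1
  refine List.flatMap_congr fun l _ => ?_
  exact LD.wr_eq V v l

section FPs

variable {m : ℕ}

theorem fp_flatMap {α : Type} (f : α → (Fin m → List CNFLetter) → List CNFLetter)
    (hf : ∀ a, FP m (f a)) : ∀ L : List α, FP m (fun ρ => L.flatMap fun a => f a ρ)
  | [] => .const []
  | a :: L => ((hf a).append (fp_flatMap f hf L)).congr fun ρ => by simp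

theorem fp_rep {A : (Fin m → List CNFLetter) → List CNFLetter} (hA : FP m A) :
    ∀ n : ℕ, FP m (fun ρ => (List.replicate n (A ρ)).flatten)
  | 0 => .const []
  | n + 1 => (hA.append (fp_rep hA n)).congr fun ρ => by simp [List.replicate_succ]

theorem fp_wr {A B : (Fin m → List CNFLetter) → List CNFLetter} (hA : FP m A) (hB : FP m B)
    (l : LD) : FP m (fun ρ => l.wr (A ρ) (B ρ)) := by
  obtain ⟨a, b, u, s⟩ := l
  cases u
  · exact ((FP.const [if s then .pos else .neg]).append ((fp_rep hA a).append
      (FP.const (List.replicate b .tick)))).congr fun ρ => by simp [LD.wr]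
  · exact ((FP.const [if s then .pos else .neg]).append ((fp_rep hA a).append
      ((FP.const (List.replicate b .tick)).append hB))).congr fun ρ => by simp [LD.wr]

theorem fp_wrC {A B : (Fin m → List CNFLetter) → List CNFLetter} (hA : FP m A) (hB : FP m B)
    (c : List LD) : FP m (fun ρ => wrC (A ρ) (B ρ) c) :=
  ((FP.const [.clause]).append (fp_flatMap _ (fun l => fp_wr hA hB l) c)).congr fun ρ => by
    simp [wrC]

theorem fp_wrF {A B : (Fin m → List CNFLetter) → List CNFLetter} (hA : FP m A) (hB : FP m B)
    (F : List (List LD)) : FP m (fun ρ => wrF (A ρ) (B ρ) F) :=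
  (fp_flatMap _ (fun c => fp_wrC hA hB c) F).congr fun ρ => by simp [wrF]

end FPs

/-- loop over `v < V` -/
def lpF (T : List CNFLetter) (F : List (List LD)) : List CNFLetter :=
  scan (fun p _ => wrF T p F) [] T

theorem scan_replicate (f : List CNFLetter → CNFLetter → List CNFLetter) : ∀ n k : ℕ,
    scan f (List.replicate k .tick) (List.replicate n .tick) =
      (List.range n).flatMap fun v => f (List.replicate (k + v) .tick) .tick
  | 0, k => by simp [scan]
  | n + 1, k => by
    rw [List.replicate_succ, scan]
    have h : List.replicate k CNFLetter.tick ++ [.tick] = List.replicate (k + 1) .tick := by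
      rw [← List.replicate_succ']
    rw [h, scan_replicate f n (k + 1), List.range_succ_eq_map, List.flatMap_cons,
      List.flatMap_map, Nat.add_zero]
    congr 1
    refine List.flatMap_congr fun v _ => ?_
    rw [show k + 1 + v = k + v.succ by omega]

theorem lpF_eq (V : ℕ) (F : List (List LD)) : lpF (List.replicate V .tick) F =
    encodeCNF ((List.range V).flatMap fun v => F.map fun c => c.map (LD.lit V v)) := by
  unfold lpF
  have h := scan_replicate (fun p _ => wrF (List.replicate V .tick) p F) V 0
  rw [List.replicate_zero] at h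
  rw [h]
  conv_rhs => unfold encodeCNF
  rw [List.flatMap_assoc]
  refine List.flatMap_congr fun v _ => ?_
  rw [Nat.zero_add, wrF_eq]
  rfl

theorem fp_lpF {m : ℕ} {A : (Fin m → List CNFLetter) → List CNFLetter} (hA : FP m A)
    (F : List (List LD)) : FP m (fun ρ => lpF (A ρ) F) :=
  (hA.scanOver (F := fun _ ρ => wrF (A fun i => ρ i.succ) (ρ 0) F)
    (fun _ => fp_wrF hA.weak (FP.var 0) F)).congr fun ρ => by
      simp only [Matrix.cons_val_succ, Matrix.cons_val_zero]
      rfl

/-! ### the leading ticks -/

/-- the letters which are not ticks -/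
def nt (p : List CNFLetter) : List CNFLetter := p.flatMap fun c => if c = .tick then [] else [c]

/-- the leading ticks -/
def lead (w : List CNFLetter) : List CNFLetter :=
  scan (fun p c => if nt p = [] then (if c = .tick then [c] else []) else []) [] w

theorem fp_nt {m : ℕ} {A : (Fin m → List CNFLetter) → List CNFLetter} (hA : FP m A) :
    FP m (fun ρ => nt (A ρ)) :=
  hA.flatMap (F := fun c _ => if c = .tick then [] else [c]) fun c => .const _

theorem fp_lead {m : ℕ} {A : (Fin m → List CNFLetter) → List CNFLetter} (hA : FP m A) :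
    FP m (fun ρ => lead (A ρ)) :=
  (hA.scanOver (F := fun c ρ => if nt (ρ 0) = [] then (if c = .tick then [c] else []) else [])
    (fun _ => FP.iteNil (fp_nt (FP.var 0)) (.const _) (.const _))).congr fun ρ => by
      simp only [Matrix.cons_val_zero]
      rfl

theorem nt_append (p q : List CNFLetter) : nt (p ++ q) = nt p ++ nt q := by
  unfold nt
  rw [List.flatMap_append]

theorem scan_nt : ∀ (l p : List CNFLetter), nt p ≠ [] →
    scan (fun p c => if nt p = [] then (if c = .tick then [c] else []) else []) p l = []
  | [], _, _ => rfl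
  | c :: l, p, h => by
    rw [scan, if_neg h, scan_nt l (p ++ [c]) (by
      rw [nt_append]
      intro h'
      exact h (List.append_eq_nil_iff.1 h').1)]
    rfl

theorem nt_replicate (n : ℕ) : nt (List.replicate n .tick) = [] := by
  induction n with
  | zero => rfl
  | succ n ih =>
    rw [List.replicate_succ]
    unfold nt at ih ⊢
    rw [List.flatMap_cons, ih]
    rfl

theorem lead_eq (V : ℕ) (Φ : CNF) : lead (encI V Φ) = List.replicate V .tick := by
  unfold lead encI
  rw [scan_append, List.nil_append]
  have h1 := scan_replicate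
    (fun p c => if nt p = [] then (if c = .tick then [c] else []) else []) V 0
  rw [List.replicate_zero] at h1
  rw [h1]
  have h2 : ((List.range V).flatMap fun v => (if nt (List.replicate (0 + v) .tick) = [] then
      (if CNFLetter.tick = .tick then [CNFLetter.tick] else []) else [])) =
      List.replicate V .tick := by
    simp only [nt_replicate, if_true]
    rw [← List.map_eq_flatMap, List.map_const', List.length_range]
  rw [h2]
  have h3 : scan (fun p c => if nt p = [] then (if c = CNFLetter.tick then [c] else []) else [])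
      (List.replicate V .tick) (encodeCNF Φ) = [] := by
    cases Φ with
    | nil => rfl
    | cons C Φ =>
      rw [show encodeCNF (C :: Φ) = .clause :: ((C.flatMap fun l =>
        (if l.2 then CNFLetter.pos else .neg) :: List.replicate l.1 .tick) ++ encodeCNF Φ) from rfl]
      rw [scan, scan_nt]
      · simp
      · rw [nt_append]
        simp [nt]
  rw [h3, List.append_nil]

/-- the copies of the formula, letter by letter -/
def cpl (T : List CNFLetter) (q i : ℕ) : CNFLetter → List CNFLetter
  | .clause => .clause :: LD.wr T [] ⟨q, i, false, false⟩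
  | .pos => .pos :: (List.replicate i T).flatten
  | .neg => .neg :: (List.replicate i T).flatten
  | .tick => [.tick]

/-- the copies of the formula -/
def cpF (T R : List CNFLetter) (q i : ℕ) : List CNFLetter := R.flatMap (cpl T q i)

theorem fp_cpF {m : ℕ} {A B : (Fin m → List CNFLetter) → List CNFLetter} (hA : FP m A)
    (hB : FP m B) (q i : ℕ) : FP m (fun ρ => cpF (A ρ) (B ρ) q i) :=
  hB.flatMap (F := fun c ρ => cpl (A ρ) q i c) (fun c => match c with
    | .clause => ((FP.const [.clause]).append (fp_wr hA (FP.const []) _)).congr fun _ => rfl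
    | .pos => ((FP.const [.pos]).append (fp_rep hA i)).congr fun _ => rfl
    | .neg => ((FP.const [.neg]).append (fp_rep hA i)).congr fun _ => rfl
    | .tick => .const _)

theorem cpF_eq (V q i : ℕ) (Φ : CNF) : cpF (List.replicate V .tick) (encodeCNF Φ) q i =
    encodeCNF (Φ.map fun C => (df V q i, false) :: C.map fun l => (dx V i l.1, l.2)) := by
  unfold cpF encodeCNF
  rw [List.flatMap_assoc, List.flatMap_map]
  refine List.flatMap_congr fun C _ => ?_
  rw [List.flatMap_cons, List.flatMap_cons]
  have h0 : cpl (List.replicate V .tick) q i .clause =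
      .clause :: LD.wr (List.replicate V .tick) (List.replicate 0 .tick) ⟨q, i, false, false⟩ := rfl
  rw [h0, LD.wr_eq]
  have h1 : (LD.lit V 0 ⟨q, i, false, false⟩) = (df V q i, false) := by
    simp [LD.lit, df]
  rw [h1, List.flatMap_map, List.flatMap_assoc, List.cons_append]
  congr 2
  refine List.flatMap_congr fun l _ => ?_
  rw [List.flatMap_cons]
  have h2 : ∀ n : ℕ, (List.replicate n CNFLetter.tick).flatMap (cpl (List.replicate V .tick) q i) =
      List.replicate n .tick := by
    intro n
    induction n with
    | zero => rfl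
    | succ n ih =>
      rw [List.replicate_succ, List.flatMap_cons, ih]
      rfl
  rw [h2]
  have h3 : (List.replicate i (List.replicate V CNFLetter.tick)).flatten =
      List.replicate (i * V) .tick := List.flatten_replicate_replicate
  obtain ⟨n, b⟩ := l
  cases b
  · show (CNFLetter.neg :: (List.replicate i (List.replicate V CNFLetter.tick)).flatten) ++
      List.replicate n .tick = .neg :: List.replicate (dx V i n) .tick
    rw [h3, List.cons_append, List.replicate_append_replicate]
    rfl
  · show (CNFLetter.pos :: (List.replicate i (List.replicate V CNFLetter.tick)).flatten) ++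
      List.replicate n .tick = .pos :: List.replicate (dx V i n) .tick
    rw [h3, List.cons_append, List.replicate_append_replicate]
    rfl

theorem encodeCNF_append (F G : CNF) : encodeCNF (F ++ G) = encodeCNF F ++ encodeCNF G := by
  unfold encodeCNF
  rw [List.flatMap_append]

theorem encodeCNF_flatMap {α : Type} (L : List α) (f : α → CNF) :
    encodeCNF (L.flatMap f) = L.flatMap fun a => encodeCNF (f a) := by
  unfold encodeCNF
  rw [List.flatMap_assoc]

/-- the second part of `dup`, for the number `i` -/
def gA (q i : ℕ) : List (List LD) := [[⟨q, i, false, true⟩, ⟨i, 0, true, false⟩]]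

/-- the third part -/
def gB (q : ℕ) : List (List LD) := [[⟨q, 0, false, true⟩]]

/-- the fourth part -/
def gC (q i : ℕ) : List (List LD) :=
  [[⟨q, i + 1, false, false⟩, ⟨q, i, false, true⟩], [⟨q + i, q + i, false, true⟩],
    [⟨q, i + 1, false, false⟩, ⟨q + i + 1, q + i, false, false⟩]]

/-- the fifth part -/
def gD (q i : ℕ) : List (List LD) :=
  [[⟨q + i, q + i + 1, true, false⟩, ⟨q + i, q + i, true, true⟩],
   [⟨q + i, q + i + 1, true, false⟩, ⟨i, 0, true, true⟩, ⟨i + 1, 0, true, false⟩],
   [⟨q + i, q + i + 1, true, false⟩, ⟨i, 0, true, false⟩, ⟨i + 1, 0, true, true⟩],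
   [⟨q + i, q + i + 1, true, true⟩, ⟨q + i, q + i, true, false⟩, ⟨i, 0, true, true⟩,
    ⟨i + 1, 0, true, true⟩],
   [⟨q + i, q + i + 1, true, true⟩, ⟨q + i, q + i, true, false⟩, ⟨i, 0, true, false⟩,
    ⟨i + 1, 0, true, false⟩],
   [⟨q, i + 1, false, false⟩, ⟨q + i, q + i, true, false⟩, ⟨q + i, q + i + 1, true, true⟩,
    ⟨i, 0, true, true⟩]]

/-- the number `i V + v` -/
theorem lit_x (V v i : ℕ) (s : Bool) : LD.lit V v ⟨i, 0, true, s⟩ = (dx V i v, s) := by
  simp [LD.lit, dx]

theorem lit_f (V v q i : ℕ) (s : Bool) : LD.lit V v ⟨q, i, false, s⟩ = (df V q i, s) := by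
  simp [LD.lit, df]

theorem lit_e (V v q i : ℕ) (s : Bool) : LD.lit V v ⟨q + i, q + i, true, s⟩ = (de V q i v, s) := by
  simp only [LD.lit, de, if_true]
  congr 1
  ring

theorem lit_e1 (V v q i : ℕ) (s : Bool) :
    LD.lit V v ⟨q + i, q + i + 1, true, s⟩ = (de V q i (v + 1), s) := by
  simp only [LD.lit, de, if_true]
  congr 1
  ring

theorem lit_e0 (V v q i : ℕ) (s : Bool) :
    LD.lit V v ⟨q + i, q + i, false, s⟩ = (de V q i 0, s) := by
  simp only [LD.lit, de]
  congr 1
  simp
  ring

theorem lit_eV (V v q i : ℕ) (s : Bool) :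
    LD.lit V v ⟨q + i + 1, q + i, false, s⟩ = (de V q i V, s) := by
  simp only [LD.lit, de]
  congr 1
  simp
  ring

theorem dup_eq (q V : ℕ) (Φ : CNF) : dup q V Φ =
    (List.range q).flatMap (fun i =>
      (Φ.map fun C => (df V q i, false) :: C.map fun l => (dx V i l.1, l.2)) ++
      (List.range V).flatMap (fun v => (gA q i).map fun c => c.map (LD.lit V v))) ++
    ((gB q).map fun c => c.map (LD.lit V 0)) ++
    (List.range (q - 1)).flatMap (fun i =>
      ((gC q i).map fun c => c.map (LD.lit V 0)) ++
      (List.range V).flatMap (fun v => (gD q i).map fun c => c.map (LD.lit V v))) := by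
  unfold dup gA gB gC gD
  simp only [List.map_cons, List.map_nil, lit_x, lit_e, lit_e1, lit_e0, lit_eV]
  simp only [lit_f]
  congr 2
  refine List.flatMap_congr fun i _ => ?_
  rw [← List.map_eq_flatMap]

/-- the output -/
def outF (q : ℕ) (T R : List CNFLetter) : List CNFLetter :=
  ((List.replicate (q + (q - 1)) T).flatten ++ List.replicate (q + (q - 1)) .tick) ++
  (((List.range q).flatMap fun i => cpF T R q i ++ lpF T (gA q i)) ++ wrF T [] (gB q) ++
    (List.range (q - 1)).flatMap fun i => wrF T [] (gC q i) ++ lpF T (gD q i))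

theorem outF_eq (q V : ℕ) (Φ : CNF) : outF q (List.replicate V .tick) (encodeCNF Φ) =
    encI (dupV q V) (dup q V Φ) := by
  have h0 : ∀ F, wrF (List.replicate V CNFLetter.tick) [] F =
      encodeCNF (F.map fun c => c.map (LD.lit V 0)) := fun F => wrF_eq V 0 F
  unfold outF encI
  rw [dup_eq, encodeCNF_append, encodeCNF_append, encodeCNF_flatMap, encodeCNF_flatMap]
  congr 1
  · rw [List.flatten_replicate_replicate, List.replicate_append_replicate]
    congr 1
    unfold dupV
    ring
  · congr 1
    · congr 1
      · refine List.flatMap_congr fun i _ => ?_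
        rw [encodeCNF_append, cpF_eq, lpF_eq]
      · exact h0 _
    · refine List.flatMap_congr fun i _ => ?_
      rw [encodeCNF_append, h0, lpF_eq]

theorem fp_outF {m : ℕ} {A B : (Fin m → List CNFLetter) → List CNFLetter} (hA : FP m A)
    (hB : FP m B) (q : ℕ) : FP m (fun ρ => outF q (A ρ) (B ρ)) :=
  ((fp_rep hA _).append (.const _)).append
    (((fp_flatMap _ (fun i => (fp_cpF hA hB q i).append (fp_lpF hA (gA q i))) _).append
      (fp_wrF hA (.const []) (gB q))).append
    (fp_flatMap _ (fun i => (fp_wrF hA (.const []) (gC q i)).append (fp_lpF hA (gD q i))) _))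

/-- DPO -/
theorem dpo : DpoStmt := by
  intro q _
  have h : FP 1 (fun ρ : Fin 1 → List CNFLetter =>
      outF q (lead (ρ 0)) ((ρ 0).drop (lead (ρ 0)).length)) :=
    fp_outF (fp_lead (FP.var 0)) ((FP.var 0).dropLen (fp_lead (FP.var 0))) q
  refine ⟨fun w => outF q (lead w) (w.drop (lead w).length), h.pt, fun V Φ _ => ?_⟩
  show outF q (lead (encI V Φ)) ((encI V Φ).drop (lead (encI V Φ)).length) = _
  rw [lead_eq, List.length_replicate, ← outF_eq]
  congr 1
  unfold encI
  rw [List.drop_left' (List.length_replicate ..)]

end Pool.Agent.HMC.H11
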