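import Pool.Agent.Helper11_HMC.Base

/-!
# Squad HMC: module HAM (helper11)
-/

set_option autoImplicit false

namespace Pool.Agent.HMC.H11

open Pool.Agent.HMC Pool.Agent.HMC.Gem

variable {S : Type}

/-- a subgraph is determined by its edges in the three directions -/
theorem ext3 (G : Gem S) (A : S → Bool) (H H' : SimpleGraph (Fl S)) (hH : H ≤ G.cg.graph)
    (hH' : H' ≤ G.cg.graph) (h1 : ∀ x, H.Adj x (G.a1 x) ↔ H'.Adj x (G.a1 x))
    (h2 : ∀ x, H.Adj x (sig A x) ↔ H'.Adj x (sig A x))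
    (h3 : ∀ x, H.Adj x (sig (nA A) x) ↔ H'.Adj x (sig (nA A) x)) : H = H' := by
  ext x y
  constructor
  · intro h
    rcases (adj_iff G A x y).1 (hH h) with rfl | rfl | rfl
    · exact (h1 x).1 h
    · exact (h2 x).1 h
    · exact (h3 x).1 h
  · intro h
    rcases (adj_iff G A x y).1 (hH' h) with rfl | rfl | rfl
    · exact (h1 x).2 h
    · exact (h2 x).2 h
    · exact (h3 x).2 h

/-- HAM -/
theorem ham_of (hA : HmaStmt) (hB : HmbStmt) : HamStmt := by
  intro S _ G hS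
  classical
  have hfin1 : Finite (SimpleGraph (Fl S)) := inferInstance
  refine le_antisymm ?_ ?_
  · -- from pairs to Hamiltonian cycles
    have hx : ∀ p : (S → Bool) × Set (Fl S), ∃ H : SimpleGraph (Fl S),
        (G.IsOrb p.1 p.2 ∧ ∀ s, ∃ x ∈ p.2, x.1 = s) →
        H ≤ G.cg.graph ∧ H.Connected ∧
      (∀ v, (H.neighborSet v).ncard = 2) ∧ (∀ x, H.Adj x (G.a1 x) ↔ x ∈ p.2) ∧
      ∀ x, (H.Adj x (Gem.sig p.1 x) ↔ x ∉ p.2 ∨ ∀ y : Fl S, y.1 = x.1 → y ∈ p.2) ∧
        (H.Adj x (Gem.sig (fun s => !p.1 s) x) ↔ ∃ y : Fl S, y.1 = x.1 ∧ y ∉ p.2) := by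
      intro p
      by_cases h : G.IsOrb p.1 p.2 ∧ ∀ s, ∃ x ∈ p.2, x.1 = s
      · obtain ⟨H, h'⟩ := hB S G p.1 p.2 h.1 h.2
        exact ⟨H, fun _ => h'⟩
      · exact ⟨⊥, fun h' => absurd h' h⟩
    choose f hf using hx
    refine Set.ncard_le_ncard_of_injOn f ?_ ?_ (Set.toFinite _)
    · intro p hp
      obtain ⟨h1, h2, h3, _⟩ := hf p hp
      exact ⟨h1, h2, h3⟩
    · rintro ⟨A, T⟩ hp ⟨A', T'⟩ hp' heq
      obtain ⟨_, _, _, h4, h5⟩ := hf _ hp
      obtain ⟨_, _, _, h4', h5'⟩ := hf _ hp'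
      rw [← heq] at h4' h5'
      have hT : T = T' := by
        ext x
        exact (h4 x).symm.trans (h4' x)
      subst hT
      have hAA : A = A' := by
        funext s
        by_contra hne
        obtain ⟨x, hxT, hxs⟩ := hp.2 s
        have e : sig A' x = sig (nA A) x := by
          have h0 : A' x.1 = !A x.1 := by
            rw [hxs]
            cases h1 : A s <;> cases h2 : A' s <;> simp_all
          unfold sig nA
          rw [h0]
        have k1 := (h5' x).1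
        have k2 := (h5 x).2
        rw [show Gem.sig (fun s => !A s) x = sig (nA A) x from rfl, ← e] at k2
        have k3 := k1.symm.trans k2
        simp only [hxT, not_true_eq_false, false_or] at k3
        have k4 : ¬ ∃ y : Fl S, y.1 = x.1 ∧ y ∉ T := by
          intro h
          obtain ⟨y, hy, hyT⟩ := h
          exact hyT (k3.2 ⟨y, hy, hyT⟩ y hy)
        exact k4 (k3.1 fun y hy => by
          by_contra hyT
          exact k4 ⟨y, hy, hyT⟩)
      rw [hAA]
  · have hx : ∀ H : SimpleGraph (Fl S), ∃ A : S → Bool,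
        (H ≤ G.cg.graph ∧ H.Connected ∧ ∀ v, (H.neighborSet v).ncard = 2) →
        G.IsOrb A {x | H.Adj x (G.a1 x)} ∧
      (∀ s, ∃ x, H.Adj x (G.a1 x) ∧ x.1 = s) ∧
      ∀ x, (H.Adj x (Gem.sig A x) ↔
          ¬ H.Adj x (G.a1 x) ∨ ∀ y : Fl S, y.1 = x.1 → H.Adj y (G.a1 y)) ∧
        (H.Adj x (Gem.sig (fun s => !A s) x) ↔ ∃ y : Fl S, y.1 = x.1 ∧ ¬ H.Adj y (G.a1 y)) := by
      intro H
      by_cases h : H ≤ G.cg.graph ∧ H.Connected ∧ ∀ v, (H.neighborSet v).ncard = 2
      · obtain ⟨A, h'⟩ := hA S G hS H h.1 h.2.1 h.2.2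
        exact ⟨A, fun _ => h'⟩
      · exact ⟨fun _ => false, fun h' => absurd h' h⟩
    choose f hf using hx
    refine Set.ncard_le_ncard_of_injOn (fun H => (f H, {x | H.Adj x (G.a1 x)})) ?_ ?_
      (Set.toFinite _)
    · intro H hH
      obtain ⟨h1, h2, _⟩ := hf H hH
      exact ⟨h1, fun s => by
        obtain ⟨x, hx1, hx2⟩ := h2 s
        exact ⟨x, hx1, hx2⟩⟩
    · intro H hH H' hH' heq
      obtain ⟨_, _, h3⟩ := hf H hH
      obtain ⟨_, _, h3'⟩ := hf H' hH'
      have hAe : f H' = f H := (congrArg Prod.fst heq).symm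
      have hTe : ∀ x, H.Adj x (G.a1 x) ↔ H'.Adj x (G.a1 x) := by
        intro x
        have := congrArg (fun p : (S → Bool) × Set (Fl S) => x ∈ p.2) heq
        exact iff_of_eq this
      rw [hAe] at h3'
      refine ext3 G (f H) H H' hH.1 hH'.1 hTe ?_ ?_
      · intro x
        rw [(h3 x).1, (h3' x).1]
        simp only [hTe]
      · intro x
        rw [show sig (nA (f H)) x = Gem.sig (fun s => !f H s) x from rfl, (h3 x).2, (h3' x).2]
        simp only [hTe]

end Pool.Agent.HMC.H11
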