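import Pool.Agent.Helper11_HMC.Base

/-!
# Squad HMC: module HMB (helper11)
-/

set_option autoImplicit false

namespace Pool.Agent.HMC.H11

open Pool.Agent.HMC Pool.Agent.HMC.Gem

variable {S : Type}

/-- all the corners of the square of `x` are in `T` -/
def Full (T : Set (Fl S)) (x : Fl S) : Prop := ∀ y : Fl S, y.1 = x.1 → y ∈ T

theorem full_sig (T : Set (Fl S)) (A : S → Bool) (x : Fl S) : Full T (sig A x) ↔ Full T x := by
  unfold Full
  rw [sig_fst]

/-- the Hamiltonian cycle -/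
def hg (G : Gem S) (A : S → Bool) (T : Set (Fl S)) (h1 : ∀ x, x ∈ T ↔ G.a1 x ∈ T)
    (h2 : ∀ x, x ∈ T ↔ sig A x ∈ T) : SimpleGraph (Fl S) where
  Adj x y := (x ∈ T ∧ y = G.a1 x) ∨ ((x ∉ T ∨ Full T x) ∧ y = sig A x) ∨
    (¬ Full T x ∧ y = sig (nA A) x)
  symm := ⟨by
    rintro x y (⟨h, rfl⟩ | ⟨h, rfl⟩ | ⟨h, rfl⟩)
    · exact Or.inl ⟨(h1 x).1 h, (G.inv x).symm⟩
    · refine Or.inr (Or.inl ⟨?_, (sig_sig A x).symm⟩)
      rw [full_sig, ← h2]
      exact h
    · exact Or.inr (Or.inr ⟨by rwa [full_sig], (sig_sig _ x).symm⟩)⟩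
  loopless := ⟨by
    rintro x (⟨_, h⟩ | ⟨_, h⟩ | ⟨_, h⟩)
    · exact a1_ne G x h.symm
    · exact sig_ne A x h.symm
    · exact sig_ne _ x h.symm⟩

section

variable (G : Gem S) (A : S → Bool) (T : Set (Fl S)) (h1 : ∀ x, x ∈ T ↔ G.a1 x ∈ T)
    (h2 : ∀ x, x ∈ T ↔ sig A x ∈ T)

theorem hg_a1 (x : Fl S) : (hg G A T h1 h2).Adj x (G.a1 x) ↔ x ∈ T := by
  constructor
  · rintro (⟨h, _⟩ | ⟨_, h⟩ | ⟨_, h⟩)
    · exact h
    · exact absurd h (a1_ne_sig G A x)
    · exact absurd h (a1_ne_sig G _ x)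
  · intro h
    exact Or.inl ⟨h, rfl⟩

theorem hg_sig (x : Fl S) : (hg G A T h1 h2).Adj x (sig A x) ↔ x ∉ T ∨ Full T x := by
  constructor
  · rintro (⟨_, h⟩ | ⟨h, _⟩ | ⟨_, h⟩)
    · exact absurd h.symm (a1_ne_sig G A x)
    · exact h
    · exact absurd h (sig_ne_sig A x)
  · intro h
    exact Or.inr (Or.inl ⟨h, rfl⟩)

theorem hg_nsig (x : Fl S) : (hg G A T h1 h2).Adj x (sig (nA A) x) ↔ ¬ Full T x := by
  constructor
  · rintro (⟨_, h⟩ | ⟨_, h⟩ | ⟨h, _⟩)
    · exact absurd h.symm (a1_ne_sig G _ x)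
    · exact absurd h.symm (sig_ne_sig A x)
    · exact h
  · intro h
    exact Or.inr (Or.inr ⟨h, rfl⟩)

theorem hg_deg (x : Fl S) : ((hg G A T h1 h2).neighborSet x).ncard = 2 := by
  by_cases hT : x ∈ T
  · by_cases hF : Full T x
    · have : (hg G A T h1 h2).neighborSet x = {G.a1 x, sig A x} := by
        ext y
        simp only [SimpleGraph.mem_neighborSet, Set.mem_insert_iff, Set.mem_singleton_iff]
        constructor
        · rintro (⟨_, h⟩ | ⟨_, h⟩ | ⟨h, _⟩)
          · exact Or.inl h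
          · exact Or.inr h
          · exact absurd hF h
        · rintro (rfl | rfl)
          · exact (hg_a1 G A T h1 h2 x).2 hT
          · exact (hg_sig G A T h1 h2 x).2 (Or.inr hF)
      rw [this, Set.ncard_pair (a1_ne_sig G A x)]
    · have : (hg G A T h1 h2).neighborSet x = {G.a1 x, sig (nA A) x} := by
        ext y
        simp only [SimpleGraph.mem_neighborSet, Set.mem_insert_iff, Set.mem_singleton_iff]
        constructor
        · rintro (⟨_, h⟩ | ⟨h, _⟩ | ⟨_, h⟩)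
          · exact Or.inl h
          · exact absurd h (by simp [hT, hF])
          · exact Or.inr h
        · rintro (rfl | rfl)
          · exact (hg_a1 G A T h1 h2 x).2 hT
          · exact (hg_nsig G A T h1 h2 x).2 hF
      rw [this, Set.ncard_pair (a1_ne_sig G _ x)]
  · have hF : ¬ Full T x := fun h => hT (h x rfl)
    have : (hg G A T h1 h2).neighborSet x = {sig A x, sig (nA A) x} := by
      ext y
      simp only [SimpleGraph.mem_neighborSet, Set.mem_insert_iff, Set.mem_singleton_iff]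
      constructor
      · rintro (⟨h, _⟩ | ⟨_, h⟩ | ⟨_, h⟩)
        · exact absurd h hT
        · exact Or.inl h
        · exact Or.inr h
      · rintro (rfl | rfl)
        · exact (hg_sig G A T h1 h2 x).2 (Or.inl hT)
        · exact (hg_nsig G A T h1 h2 x).2 hF
    rw [this, Set.ncard_pair (sig_ne_sig A x)]

/-- in a square which is not full, the opposite smoothing leaves `T` -/
theorem not_mem_of (x : Fl S) (h : x ∈ T) (hF : ¬ Full T x) (h2 : ∀ x, x ∈ T ↔ sig A x ∈ T) :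
    sig (nA A) x ∉ T := by
  intro h3
  apply hF
  intro y hy
  rcases square A x y hy with rfl | rfl | rfl | rfl
  · exact h
  · exact (h2 _).1 h
  · exact h3
  · exact (h2 _).1 h3

theorem reach_sig (x : Fl S) (h : x ∈ T) : (hg G A T h1 h2).Reachable x (sig A x) := by
  by_cases hF : Full T x
  · exact ((hg_sig G A T h1 h2 x).2 (Or.inr hF)).reachable
  · have h3 := not_mem_of A T x h hF h2
    have e1 : (hg G A T h1 h2).Adj x (sig (nA A) x) := (hg_nsig G A T h1 h2 x).2 hF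
    have e2 : (hg G A T h1 h2).Adj (sig (nA A) x) (sig A (sig (nA A) x)) :=
      (hg_sig G A T h1 h2 _).2 (Or.inl h3)
    have e3 : (hg G A T h1 h2).Adj (sig A x) (sig (nA A) (sig A x)) := by
      rw [hg_nsig, full_sig]
      exact hF
    rw [← sig_comm] at e3
    exact (e1.reachable.trans e2.reachable).trans e3.symm.reachable

theorem reach_T (x : Fl S) (hx : ∃ y ∈ T, y.1 = x.1) :
    ∃ y ∈ T, (hg G A T h1 h2).Reachable x y := by
  by_cases h : x ∈ T
  · exact ⟨x, h, SimpleGraph.Reachable.refl x⟩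
  · have hF : ¬ Full T x := fun h' => h (h' x rfl)
    refine ⟨sig (nA A) x, ?_, ((hg_nsig G A T h1 h2 x).2 hF).reachable⟩
    obtain ⟨y, hy, hyx⟩ := hx
    rcases square A x y hyx with rfl | rfl | rfl | rfl
    · exact absurd hy h
    · exact absurd ((h2 _).2 hy) h
    · exact hy
    · exact (h2 _).2 hy

end

theorem orb_closed {G : Gem S} {A : S → Bool} {T : Set (Fl S)} (hT : G.IsOrb A T) :
    (∀ x, x ∈ T ↔ G.a1 x ∈ T) ∧ ∀ x, x ∈ T ↔ sig A x ∈ T := by
  obtain ⟨z, rfl⟩ := hT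
  constructor
  · intro x
    have h : Quot.mk (G.lrel A) x = Quot.mk (G.lrel A) (G.a1 x) := Quot.sound (Or.inl rfl)
    simp only [Set.mem_setOf_eq, h]
  · intro x
    have h : Quot.mk (G.lrel A) x = Quot.mk (G.lrel A) (sig A x) := Quot.sound (Or.inr rfl)
    simp only [Set.mem_setOf_eq, h]

/-- HMB -/
theorem hmb : HmbStmt := by
  intro S _ G A T hT hs
  obtain ⟨h1, h2⟩ := orb_closed hT
  refine ⟨hg G A T h1 h2, ?_, ?_, hg_deg G A T h1 h2, hg_a1 G A T h1 h2, ?_⟩
  · rintro x y (⟨_, rfl⟩ | ⟨_, rfl⟩ | ⟨_, rfl⟩)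
    · exact adj_a1 G x
    · exact adj_sig G A x
    · exact adj_sig G _ x
  · obtain ⟨z, hz⟩ := hT
    have key : ∀ y w, Relation.EqvGen (G.lrel A) y w →
        (y ∈ T ↔ w ∈ T) ∧ (y ∈ T → (hg G A T h1 h2).Reachable y w) := by
      intro y w h
      induction h with
      | rel y w h =>
        rcases h with rfl | rfl
        · exact ⟨h1 y, fun h => ((hg_a1 G A T h1 h2 y).2 h).reachable⟩
        · exact ⟨h2 y, fun h => reach_sig G A T h1 h2 y h⟩
      | refl y => exact ⟨Iff.rfl, fun _ => SimpleGraph.Reachable.refl y⟩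
      | symm y w _ ih => exact ⟨ih.1.symm, fun h => (ih.2 (ih.1.2 h)).symm⟩
      | trans a b c _ _ ih1 ih2 =>
        exact ⟨ih1.1.trans ih2.1, fun h => (ih1.2 h).trans (ih2.2 (ih1.1.1 h))⟩
    have hzT : z ∈ T := by rw [hz]; rfl
    have hall : ∀ x, (hg G A T h1 h2).Reachable x z := by
      intro x
      obtain ⟨y, hy, hxy⟩ := reach_T G A T h1 h2 x (hs x.1)
      refine hxy.trans ?_
      have hy' : Quot.mk (G.lrel A) y = Quot.mk (G.lrel A) z := by
        rw [hz] at hy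
        exact hy
      exact (key y z (Quot.eqvGen_exact hy')).2 hy
    haveI : Nonempty (Fl S) := ⟨z⟩
    exact ⟨fun x y => (hall x).trans (hall y).symm⟩
  · intro x
    refine ⟨hg_sig G A T h1 h2 x, ?_⟩
    rw [show (Gem.sig (fun s => !A s) x) = sig (nA A) x from rfl, hg_nsig]
    unfold Full
    push Not
    rfl

end Pool.Agent.HMC.H11
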